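import Mathlib
import Pool.Agent.Run7.h407.LE.Defs

/-!
Definitions for the Euler equations on the torus projected on spaces with scalar constraints which
are supported in a given set (continuation of LE/Defs).
-/

namespace Pool.Agent.Run7.h407.LM

open Set Filter Topology MeasureTheory Run7.h407.LE
open scoped ContDiff

/-- The union of the support of the field `U` and the ball `|x - z| ≤ ε`. -/
def region (U : E3 → E3) (z : E3) (ε : ℝ) : Set E3 := tsupport U ∪ {x | dst x z ≤ ε}

/-- In the cube, the field vanishes outside the set `K`. -/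
def ZeroOff (K : Set E3) (v : E3 → E3) : Prop := ∀ x ∈ cube, x ∉ K → v x = 0

/-- The modes `p n` and the constraint fields `g n i`: `p 0 = U`; the modes are smooth periodic
divergence-free fields, none of them zero, mutually orthogonal in `L²`; the constraint fields are
smooth and periodic, and they vanish near `z`; in the cube, all modes and constraint fields vanish
outside `K`; for `n ≥ 3` both are, in the cube, the universal ones with the index `n + k`,
translated to the point `z`; and all square integrable divergence-free fields which satisfy the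
constraints form an admissible space (the largest one). -/
structure IsFamily (K : Set E3) (P : ℕ → E3 → E3) (G : ℕ → Fin 2 → E3 → E3) (k : ℕ) (z : E3)
    (U : E3 → E3) (p : ℕ → E3 → E3) (g : ℕ → Fin 2 → E3 → E3) : Prop where
  first : p 0 = U
  mode : ∀ n, IsFlow (p n) ∧ 0 < innerL2 (p n) (p n) ∧ ZeroOff K (p n)
  orthogonal : ∀ m n, m ≠ n → innerL2 (p m) (p n) = 0
  field : ∀ n i, Smooth (g n i) ∧ Periodic (g n i) ∧ VanishesNear z (g n i) ∧ ZeroOff K (g n i)
  universal : ∀ n ≥ 3, IsShift z (p n) (P (n + k)) ∧ ∀ i, IsShift z (g n i) (G (n + k) i)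
  largest : IsSpace p g {w | IsSolenoidal w ∧ Constrained g w}

/-- Blow-up from the datum `v` before the time `T₀`: there are `T ≤ T₀` and a smooth field `u` on
`[0,T)` with `u(0) = v`, which vanishes outside `K` in the cube, with `|u| ≤ C` and, in the cube,
`|∇u(t,x)| ≤ C |x - z|^(-δ)`, whose vorticity is unbounded as `t → T`, and which solves the
equations projected on `W` for all admissible spaces `W` at once. For each of these spaces every
solution with the datum `v` is a restriction of `u`; in particular none exists beyond `T`; and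
every admissible weak solution with the datum `v` (on some interval `[0,T')`) is equal to `u(t)`
almost everywhere, for all times `t < T', T`. -/
def BlowsUp (K : Set E3) (δ : ℝ) (z : E3) (p : ℕ → E3 → E3) (g : ℕ → Fin 2 → E3 → E3)
    (v : E3 → E3) (T₀ : ℝ) : Prop :=
  ∃ T, 0 < T ∧ T ≤ T₀ ∧ ∃ u : ℝ → E3 → E3, SmoothOn (Ico 0 T) u ∧ u 0 = v ∧
    (∀ t ∈ Ico 0 T, ZeroOff K (u t)) ∧
    (∃ C, ∀ t ∈ Ico 0 T, ∀ x, mag (u t x) ≤ C) ∧
    (∃ C, ∀ t ∈ Ico 0 T, ∀ x ∈ cube, ∀ i j, |pderiv j (fun y => u t y i) x| * dst x z ^ δ ≤ C) ∧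
    (∀ M, ∀ᶠ t in 𝓝[<] T, ∃ x, M < mag (vorticity (u t) x)) ∧
    ∀ W : Set (E3 → E3), IsSpace p g W → IsProjected W T u ∧
      (∀ (T' : ℝ) (w : ℝ → E3 → E3), IsProjected W T' w → w 0 = v →
        T' ≤ T ∧ ∀ t ∈ Ico 0 T', w t = u t) ∧
      ∀ (T' : ℝ) (w : ℝ → E3 → E3), IsAdmissible W T' w → AEEq (w 0) v →
        ∀ t ∈ Ico 0 T', t < T → AEEq (w t) (u t)

end Pool.Agent.Run7.h407.LM
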