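import Mathlib
import Pool.Agent.Run7.h407.DU.MainE

/-!
The main theorems with universal constraint fields, Euler equations: in the cube, all modes and
constraint fields vanish outside the union of the support of the datum and a ball.
-/

namespace Pool.Agent.Run7.h407.G.X.LMe

open Set Filter Topology MeasureTheory
open scoped ContDiff

/-- In the cube, the modes and the constraint fields vanish outside `K`. -/
structure SupT (K : V → Prop) (p : ℕ → V → V) (g : ℕ → Fin 2 → V → V) : Prop where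
  mode : ∀ n, ∀ x ∈ cube, ¬ K x → p n x = 0
  field : ∀ n i, ∀ x ∈ cube, ¬ K x → g n i x = 0

theorem SupT.mono {K K' : V → Prop} {p : ℕ → V → V} {g : ℕ → Fin 2 → V → V} (h : SupT K p g)
    (hK : ∀ x, K x → K' x) : SupT K' p g :=
  ⟨fun n x hx hk => h.mode n x hx fun h' => hk (hK x h'),
    fun n i x hx hk => h.field n i x hx fun h' => hk (hK x h')⟩

theorem GA_zero {P : ℕ → V → V} {x : V} (h : ∀ᶠ y in 𝓝 x, ∀ n, P n y = 0) (n : ℕ) :
    GA P n x = 0 := by
  have h0 : ∀ k, ∀ᶠ y in 𝓝 x, P k y = 0 := fun k => h.mono fun y hy => hy k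
  have h1 : ∀ k, P k x = 0 := fun k => (h0 k).self_of_nhds
  have a1 : ∀ k m, adv (P k) (P m) x = 0 := fun k m => adv_zero (Or.inl (h0 k))
  simp [GA, a1, h1]

theorem GB_zero {P : ℕ → V → V} {x : V} (h : ∀ᶠ y in 𝓝 x, ∀ n, P n y = 0) (n : ℕ) :
    GB P n x = 0 := by
  have h0 : ∀ k, ∀ᶠ y in 𝓝 x, P k y = 0 := fun k => h.mono fun y hy => hy k
  have h1 : ∀ k, P k x = 0 := fun k => (h0 k).self_of_nhds
  have a1 : ∀ k m, adv (P k) (P m) x = 0 := fun k m => adv_zero (Or.inl (h0 k))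
  simp [GB, a1, h1]

theorem supT_of {δ q ε₀ A₀ : ℝ} {U : V → V} {Q : ℕ → V → V} (H : ECh δ q ε₀ A₀ U Q) (z : V) :
    SupT (fun x => x - z ∈ tsupport U ∨ ‖x - z‖ ≤ ε₀) (fun n => pz z (Q (n + 1))) (GT Q z) := by
  have hz : ∀ y, ¬ (y ∈ tsupport U ∨ ‖y‖ ≤ ε₀) → ∀ᶠ w in 𝓝 y, ∀ n, Q n w = 0 := by
    intro y hy
    rw [not_or, not_le] at hy
    filter_upwards [(isClosed_tsupport U).isOpen_compl.mem_nhds hy.1,
      (continuous_norm.tendsto y).eventually (lt_mem_nhds hy.2)] with w hw1 hw2 n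
    by_contra hcon
    rcases H.supp n w hcon with h | h
    · exact hw1 h
    · exact absurd h (not_le.2 hw2)
  refine ⟨fun n x hx hk => ?_, fun n i x hx hk => ?_⟩
  · show pex (Tl z (Q (n + 1))) x = 0
    rw [pex_cube _ hx]
    exact (hz _ hk).self_of_nhds (n + 1)
  · fin_cases i
    · show pex (Tl z (GA Q n)) x = 0
      rw [pex_cube _ hx]
      exact GA_zero (hz _ hk) n
    · show pex (Tl z (GB Q n)) x = 0
      rw [pex_cube _ hx]
      exact GB_zero (hz _ hk) n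

theorem tsupp_Tl {U : V → V} {z x : V} (h : x - z ∈ tsupport (Tl (-z) (cube.indicator U))) :
    x ∈ tsupport U := by
  by_contra hcon
  apply (notMem_tsupport_iff_eventuallyEq.2 ?_) h
  have h1 : Tendsto (fun y : V => y + z) (𝓝 (x - z)) (𝓝 x) := by
    have : Continuous (fun y : V => y + z) := by fun_prop
    have h2 := this.tendsto (x - z)
    rwa [sub_add_cancel] at h2
  filter_upwards [h1.eventually ((isClosed_tsupport U).isOpen_compl.mem_nhds hcon)] with y hy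
  show cube.indicator U (y - -z) = 0
  rw [sub_neg_eq_add]
  by_cases hc : y + z ∈ cube
  · rw [indicator_of_mem hc]
    exact image_eq_zero_of_notMem_tsupport hy
  · exact indicator_of_notMem hc _

/-- The sums of the modes. -/
noncomputable def WS (p : ℕ → V → V) : Submodule ℝ (V → V) where
  carrier := {w | ∃ c : ℕ → ℝ, ∀ x, HasSum (fun n => c n • p n x) (w x)}
  add_mem' := by
    rintro u v ⟨a, ha⟩ ⟨b, hb⟩
    refine ⟨fun n => a n + b n, fun x => ?_⟩
    have := (ha x).add (hb x)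
    simp_rw [← add_smul] at this
    exact this
  zero_mem' := ⟨fun _ => 0, fun x => by
    simp only [zero_smul]
    exact hasSum_zero⟩
  smul_mem' := by
    rintro r u ⟨a, ha⟩
    refine ⟨fun n => r * a n, fun x => ?_⟩
    have := (ha x).const_smul r
    simp_rw [smul_smul] at this
    exact this

theorem isSpT_sum {m : ℕ} {p : ℕ → V → V} {g : ℕ → Fin m → V → V} {W : Submodule ℝ (V → V)}
    (hW : IsSpT p g W) : IsSpT p g (W ⊓ WS p) where
  per := fun w hw => hW.per w hw.1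
  l2 := fun w hw => hW.l2 w hw.1
  wdf := fun w hw => hW.wdf w hw.1
  cs := fun w hw => hW.cs w hw.1
  mem := fun v h1 h2 hs => ⟨hW.mem v h1 h2 hs, hs⟩

section torus

variable {U : V → V} {r δ q α η X : ℝ} {z : V}

/-- Every datum supported inside the cube which is not a steady flow. -/
theorem mainTA1 (M : MstE α q X) (hδ : 0 < δ) (hη : 0 < η) (hη1 : η ≤ 2 * 0 - q * (α * q - 2))
    (hη2 : η ≤ 2 * δ - q * (α * q)) (hα : α < 5 * kq q)
    (hU : ContDiff ℝ ∞ U) (hp : Per U) (hd : ∀ x, dvg U x = 0)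
    (hr : r < Real.pi) (hs : ∀ x ∈ cube, U x ≠ 0 → ‖x‖ ≤ r) (hz : ‖z‖ < Real.pi)
    (hz0 : ∀ᶠ x in 𝓝 z, U x = 0) (hns : ∃ i x, om i (adv U U) x ≠ 0) {e : ℝ} (he : 0 < e) :
    ∃ k₀ : ℕ, ∀ k ≥ k₀, ∃ (p : ℕ → V → V) (g : ℕ → Fin 2 → V → V), FamT q z U p g ∧
      SupT (fun x => x ∈ tsupport U ∨ ‖x - z‖ ≤ e) p g ∧
      TailE (fun m => M.pre.sc.P (m + 1)) (G2' M.pre.sc.P) k z p g ∧
      ∃ A₀ > 0, ∀ a > 0, BloT δ z p g (fun x => a • U x) (A₀ / a) := by
  obtain ⟨hc, ho⟩ := exists_cut hU hp hd hr hs hz hz0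
  set U' := Tl (-z) (cube.indicator U) with hU'
  have hns' : ∃ i x, om i (adv U' U') x ≠ 0 := by
    obtain ⟨i, x, hx⟩ := hns
    exact ⟨i, red x - z, by rw [← ho]; exact hx⟩
  have hε : 0 < min e ((Real.pi - ‖z‖) / 2) := lt_min he (by linarith)
  obtain ⟨k₀, hk₀⟩ := eAV M hδ hη hη1 hη2 hα hc.cf hc.dv hc.aw hns' hε
  refine ⟨k₀, fun k hk => ?_⟩
  obtain ⟨A₀, Q, hA, H, hT⟩ := hk₀ k hk
  have hle := min_le_right e ((Real.pi - ‖z‖) / 2)
  obtain ⟨h1, h2⟩ := H.torE (r := max r ((‖z‖ + Real.pi) / 2)) (z := z)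
    (max_lt hr (by linarith)) (fun x hx => (hc.ts x hx).trans (le_max_left _ _))
    (le_trans (by linarith) (le_max_right _ _))
  rw [hc.eq] at h1 h2
  refine ⟨_, _, h1, (supT_of H z).mono ?_, hT.tail z, A₀, hA, h2⟩
  rintro x (hx | hx)
  · exact Or.inl (tsupp_Tl hx)
  · exact Or.inr (hx.trans (min_le_left _ _))

/-- Small localised perturbations of every datum supported inside the cube. -/
theorem mainTB1 (M : MstE α q X) (hδ : 0 < δ) (hη : 0 < η) (hη1 : η ≤ 2 * 0 - q * (α * q - 2))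
    (hη2 : η ≤ 2 * δ - q * (α * q)) {β ε : ℝ} (hα : α < 5 * (kq q / 2))
    (hαβ : α < kq q / 2 * (1 - β))
    (hU : ContDiff ℝ ∞ U) (hp : Per U) (hd : ∀ x, dvg U x = 0)
    (hr : r < Real.pi) (hs : ∀ x ∈ cube, U x ≠ 0 → ‖x‖ ≤ r) (hz : ‖z‖ < Real.pi)
    (hz0 : ∀ᶠ x in 𝓝 z, U x = 0) (hβ0 : 0 < β) (hβ1 : β < 1) (hε : 0 < ε) :
    ∃ k₀ : ℕ, ∀ k ≥ k₀, ∃ F : V → V, ContDiff ℝ ∞ F ∧ Per F ∧ (∀ x, dvg F x = 0) ∧
      (∀ x ∈ cube, F x ≠ 0 → ‖x - z‖ ≤ ε) ∧ (∀ x, ‖F x‖ ≤ ε) ∧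
      (∀ x y, ‖F x - F y‖ ≤ ε * ‖x - y‖ ^ β) ∧
      ∃ (p : ℕ → V → V) (g : ℕ → Fin 2 → V → V), FamT q z (fun x => U x + F x) p g ∧
        SupT (fun x => x ∈ tsupport U ∨ ‖x - z‖ ≤ ε) p g ∧
        TailE (fun m => M.pre.sc.P (m + 1)) (G2' M.pre.sc.P) k z p g ∧
        ∀ a > 0, BloT δ z p g (fun x => a • (U x + F x)) (ε / a) := by
  obtain ⟨hc, -⟩ := exists_cut hU hp hd hr hs hz hz0
  set U' := Tl (-z) (cube.indicator U) with hU'
  obtain ⟨V0, T0, φ, l, R1, S, hDV⟩ := exists_src0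
  have hε₀ : 0 < min ε ((Real.pi - ‖z‖) / 2) := lt_min hε (by linarith)
  have hε' : 0 < min (ε / 2) ((Real.pi - ‖z‖) / 2) := lt_min (by linarith) (by linarith)
  obtain ⟨k₀, hk₀⟩ := eBV S hDV M hδ hη hη1 hη2 hα hαβ hc.cf hc.dv hc.aw hε₀ hε' hβ0 hβ1
  refine ⟨k₀, fun k hk => ?_⟩
  obtain ⟨F, f1, f2, f3, f4, f5, Q, H, hT⟩ := hk₀ k hk
  set ε' := min (ε / 2) ((Real.pi - ‖z‖) / 2) with hε'd
  have hee : ε' ≤ ε / 2 := min_le_left _ _
  have hle := min_le_right ε ((Real.pi - ‖z‖) / 2)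
  have hr' : max r ((‖z‖ + Real.pi) / 2) < Real.pi := max_lt hr (by linarith)
  have hsF : Sb (max r ((‖z‖ + Real.pi) / 2)) (Tl z F) := by
    intro x hx
    have h1 := (f3 (x - z) hx).trans (min_le_right _ _)
    have h2 : ‖x‖ ≤ ‖x - z‖ + ‖z‖ := by
      have := norm_add_le (x - z) z
      rwa [sub_add_cancel] at this
    exact le_trans (by linarith) (le_max_right _ _)
  have hcl2 : tsupport (fun x => U' x + F x) ⊆ tsupport U' ∪ {y | ‖y‖ ≤ ε'} := by
    apply closure_minimal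
    · intro y hy
      by_cases hF : F y = 0
      · have h1 : U' y ≠ 0 := by
          intro h2
          apply hy
          show U' y + F y = 0
          rw [h2, hF, add_zero]
        exact Or.inl (subset_tsupport _ h1)
      · exact Or.inr (f3 y hF)
    · exact (isClosed_tsupport U').union (isClosed_le continuous_norm continuous_const)
  have hts : ∀ x ∈ tsupport (fun x => U' x + F x), ‖x + z‖ ≤ max r ((‖z‖ + Real.pi) / 2) := by
    intro x hx
    rcases hcl2 hx with h | h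
    · exact (hc.ts x h).trans (le_max_left _ _)
    · have h1 := le_trans (show ‖x‖ ≤ ε' from h) (min_le_right _ _)
      have h2 := norm_add_le x z
      exact (show ‖x + z‖ ≤ (‖z‖ + Real.pi) / 2 by linarith).trans (le_max_right _ _)
  obtain ⟨h1, h2⟩ := H.torE (r := max r ((‖z‖ + Real.pi) / 2)) (z := z) hr' hts
    (le_trans (by linarith) (le_max_right _ _))
  have e1 : pz z (fun x => U' x + F x) = fun x => U x + pz z F x := by
    funext x
    show U' (red x - z) + F (red x - z) = U x + F (red x - z)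
    have := congrFun hc.eq x
    rw [← this]
    rfl
  rw [e1] at h1 h2
  have hsup : SupT (fun x => x ∈ tsupport U ∨ ‖x - z‖ ≤ ε) (fun n => pz z (Q (n + 1)))
      (GT Q z) := by
    apply (supT_of H z).mono
    rintro x (hx | hx)
    · rcases hcl2 hx with h | h
      · exact Or.inl (tsupp_Tl h)
      · right
        have h3 : ‖x - z‖ ≤ ε' := h
        linarith
    · exact Or.inr (hx.trans (min_le_left _ _))
  refine ⟨pz z F, pex_smoothR hr' (sm_Tl z f1.sm) hsF, pex_per _, fun x => ?_, fun x hx hne => ?_,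
    fun x => (f4 _).trans (by linarith), fun x y => ?_, _, _, h1, hsup, hT.tail z,
    fun a ha => ?_⟩
  · rw [dvg_pz hr' f1 hsF, f2]
  · unfold pz at hne
    rw [pex_cube _ hx] at hne
    exact (f3 (x - z) hne).trans (by linarith)
  · have h3 := pex_holder hr' hsF (C := ε') (β := β) hε'.le (fun x y => by
      have := f5 (x - z) (y - z)
      rwa [sub_sub_sub_cancel_right] at this) x y
    refine h3.trans ?_
    apply mul_le_mul_of_nonneg_right _ (Real.rpow_nonneg (norm_nonneg _) _)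
    linarith
  · obtain ⟨T, t1, t2, t3⟩ := h2 a ha
    refine ⟨T, t1, t2.trans ?_, t3⟩
    apply div_le_div_of_nonneg_right _ ha.le
    linarith

end torus

end Pool.Agent.Run7.h407.G.X.LMe
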