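import Mathlib
import Pool.Agent.Run7.h407.LE.Brg
import Pool.Agent.Run7.h407.LM.Defs
import Pool.Agent.Run7.h407.LM.LocE

/-!
The blow-up theorem for the Euler equations in terms of the definitions of LE/Defs and LM/Defs,
with all constraint fields supported in the union of the support of the datum and a small ball.
-/

namespace Pool.Agent.Run7.h407.LM

open Set Filter Topology MeasureTheory
open scoped ContDiff
open Run7.h407.LE (E3 IsUniversal IsSpace IsFlow IsSteady VanishesNear CubeInBall mag scale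
  plus dst cube vorticity IsProjected IsAdmissible divergence innerL2)

open Pool.Agent.Run7.h407.G.X in
theorem family_of {q : ℝ} {P : ℕ → E3 → E3} {G : ℕ → Fin 2 → E3 → E3} {k : ℕ} {z : E3}
    {K : Set E3} {U : E3 → E3} {p : ℕ → E3 → E3} {g : ℕ → Fin 2 → E3 → E3}
    (h : FamT q z U p g) (hs : LMe.SupT (fun x => x ∈ K) p g) (ht : TailE P G k z p g) :
    IsFamily K P G k z U p g := by
  have h1 := LE.family_of h ht
  exact ⟨h1.first, fun n => ⟨(h1.mode n).1, (h1.mode n).2, hs.mode n⟩, h1.orthogonal,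
    fun n i => ⟨(h1.field n i).1, (h1.field n i).2.1, (h1.field n i).2.2, hs.field n i⟩,
    h1.universal, h1.largest⟩

open Pool.Agent.Run7.h407 Pool.Agent.Run7.h407.G.X in
theorem blowsUp_of {q δ T₀ : ℝ} {z : E3} {K : Set E3} {U : E3 → E3} {p : ℕ → E3 → E3}
    {g : ℕ → Fin 2 → E3 → E3} {v : E3 → E3} (hF : FamT q z U p g)
    (hs : LMe.SupT (fun x => x ∈ K) p g) (h : BloT δ z p g v T₀) :
    BlowsUp K δ z p g v T₀ := by
  obtain ⟨Wm, hWm, -⟩ := hF.big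
  obtain ⟨T, hT, hTA, u, k0, k1, k2, k3, k4, k6⟩ := h
  have hm := (k6 _ (LMe.isSpT_sum hWm)).1
  have hu0 : ∀ t ∈ Ico 0 T, ZeroOff K (u t) := by
    intro t ht x hc hx
    obtain ⟨c, hc'⟩ := (hm.mem t ht).2
    have h1 := hc' x
    have h2 : (fun n => c n • p n x) = fun _ => 0 := by
      funext n
      rw [hs.mode n x hc hx, smul_zero]
    rw [h2] at h1
    exact h1.unique hasSum_zero
  refine ⟨T, hT, hTA, u, k0, k1, hu0, k2, k3, fun M => ?_, fun W hW => ?_⟩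
  · filter_upwards [k4 M] with t ht
    obtain ⟨x, hx⟩ := ht
    refine ⟨x, hx.trans_le ?_⟩
    refine le_trans (le_abs_self _) ?_
    exact norm_le_pi_norm (vorticity (u t) x) 2
  · have hsp := hW.spt
    obtain ⟨k7, k8⟩ := k6 hW.sub hsp
    refine ⟨(LE.proj_iff hW).2 k7, fun T' w hw h0 => k8 T' w ((LE.proj_iff hW).1 hw) h0,
      fun T' w hw h0 => ?_⟩
    refine LH.wt_unique k0 hsp.per hsp.l2 hsp.wdf k7.mem k7.eqn ((LE.admissible_iff hW).1 hw) ?_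
    rw [k1]
    exact h0

theorem main (δ q β : ℝ) (hδ : 0 < δ) (hq : 1 < q) (hβ0 : 0 < β) (hβ1 : β < 1) :
    ∃ (P : ℕ → E3 → E3) (G : ℕ → Fin 2 → E3 → E3), IsUniversal q P G ∧
    (∀ (U : E3 → E3) (z : E3) (ε : ℝ), IsFlow U → (∃ r < Real.pi, CubeInBall 0 r U) →
      mag z < Real.pi → VanishesNear z U → 0 < ε →
      (¬ IsSteady U → ∃ k₀ : ℕ, ∀ k ≥ k₀, ∃ (p : ℕ → E3 → E3) (g : ℕ → Fin 2 → E3 → E3),
        IsFamily (region U z ε) P G k z U p g ∧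
          ∃ A₀ > 0, ∀ a > 0, BlowsUp (region U z ε) δ z p g (scale a U) (A₀ / a)) ∧
      (∃ k₀ : ℕ, ∀ k ≥ k₀, ∃ F : E3 → E3, IsFlow F ∧ CubeInBall z ε F ∧
        (∀ x, mag (F x) ≤ ε) ∧ (∀ x y, dst (F x) (F y) ≤ ε * dst x y ^ β) ∧
        ∃ (p : ℕ → E3 → E3) (g : ℕ → Fin 2 → E3 → E3),
          IsFamily (region U z ε) P G k z (plus U F) p g ∧
            ∀ a > 0, BlowsUp (region U z ε) δ z p g (scale a (plus U F)) (ε / a))) ∧
    (∀ (p : ℕ → E3 → E3) (g : ℕ → Fin 2 → E3 → E3) (W : Set (E3 → E3)),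
      IsSpace p g W → ∀ (T : ℝ) (w : ℝ → E3 → E3), IsProjected W T w →
        IsAdmissible W T w ∧ ∀ t ∈ Ico 0 T,
          (∀ x, divergence (w t) x = 0) ∧ innerL2 (w t) (w t) = innerL2 (w 0) (w 0)) := by
  obtain ⟨α, η, hα, hαq, hη, hη1, hη2, hα1, hα2⟩ := G.X.exists_alphaU hδ hq hβ1
  obtain ⟨X, M⟩ := G.X.exists_mstE hα hq hαq
  have hα3 : α < 5 * G.X.kq q := by
    have := G.X.kq_pos hq
    linarith
  refine ⟨_, _, LE.universal_of M.uf, fun U z ε hU ⟨r, hr, hUr⟩ hz hzU hε => ⟨fun hUs => ?_, ?_⟩,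
    fun p g W hW T w hw => ?_⟩
  · have hUr' : ∀ x ∈ cube, U x ≠ 0 → ‖x‖ ≤ r := fun x hc hx => by
      have := LE.cubeInBall_iff.1 hUr x hc hx
      rwa [sub_zero] at this
    obtain ⟨k₀, hk₀⟩ := G.X.LMe.mainTA1 M hδ hη hη1 hη2 hα3 hU.smooth hU.periodic hU.div_free hr
      hUr' hz (LE.vanishes_iff.1 hzU) (LE.om_of_not_steady hUs) hε
    refine ⟨k₀, fun k hk => ?_⟩
    obtain ⟨p, g, h1, hs, h2, A₀, hA, H⟩ := hk₀ k hk
    have hs' : G.X.LMe.SupT (fun x => x ∈ region U z ε) p g := hs.mono fun x hx => hx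
    exact ⟨p, g, family_of h1 hs' h2, A₀, hA, fun a ha => blowsUp_of h1 hs' (H a ha)⟩
  · have hUr' : ∀ x ∈ cube, U x ≠ 0 → ‖x‖ ≤ r := fun x hc hx => by
      have := LE.cubeInBall_iff.1 hUr x hc hx
      rwa [sub_zero] at this
    obtain ⟨k₀, hk₀⟩ := G.X.LMe.mainTB1 M hδ hη hη1 hη2 hα2 hα1 hU.smooth hU.periodic hU.div_free
      hr hUr' hz (LE.vanishes_iff.1 hzU) hβ0 hβ1 hε
    refine ⟨k₀, fun k hk => ?_⟩
    obtain ⟨F, h1, h2, h3, h4, h5, h6, p, g, h7, hs, h9, h8⟩ := hk₀ k hk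
    have hs' : G.X.LMe.SupT (fun x => x ∈ region U z ε) p g := hs.mono fun x hx => hx
    exact ⟨F, ⟨h1, h2, h3⟩, LE.cubeInBall_iff.2 h4, h5, h6, p, g, family_of h7 hs' h9,
      fun a ha => blowsUp_of h7 hs' (h8 a ha)⟩
  · have hs := hW.spt
    refine ⟨(LE.admissible_iff hW).2 (LH.wt_of_proj ((LE.proj_iff hW).1 hw) hs.per hs.wdf), ?_⟩
    exact fun t ht => ⟨((LE.proj_iff hW).1 hw).dvg hs ht, ((LE.proj_iff hW).1 hw).energy hs ht⟩

end Pool.Agent.Run7.h407.LM
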